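import Pool.Agent.VMX.StmtsB

/-! Squad VMX (MP_e54c4c_gt), row SQN: normalised transports converge (author helper44). -/

set_option autoImplicit false

open Matrix Filter Topology

namespace Pool.Agent.VMX.H44.Sqn

open Pool.Agent.PFS Pool.Agent.PFJ Pool.Agent.NBT Pool.Agent.VMX

variable {n K : ℕ} {C : Set (V n)}

theorem pes_ne {w : Fin K → V n} (hw : PES C w) (i : Fin K) : w i ≠ 0 := by
  intro h0
  have h3 := hw.pos (fun _ => 1) (fun _ => one_pos)
  have h4 := hw.bd (fun j => if j = i then 0 else 1) (fun j => by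
    split_ifs
    · exact le_refl _
    · exact zero_le_one) ⟨i, if_pos rfl⟩
  apply h4
  have h5 : ∑ j, (if j = i then (0 : ℝ) else 1) • w j = ∑ j, (1 : ℝ) • w j := by
    refine Finset.sum_congr rfl fun j _ => ?_
    split_ifs with hj
    · rw [hj, h0, smul_zero, smul_zero]
    · rfl
  rw [h5]
  exact h3

theorem rc_ne {Γ Γ₀ : Subgroup (GL (Fin n) ℝ)} {p : Fin K} {J : Finset (Fin K)} {c : Fin K → ℕ}
    {F : (Fin K → V n) → Prop} (hSL : SL C Γ Γ₀ p J c F) {z : Fin K → V n} (hz : F z) {x : V n}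
    (hx : Rc C F p J z x) : x ≠ 0 := by
  cases hx with
  | base a ha =>
    intro h0
    rcases smul_eq_zero.1 h0 with h1 | h1
    · exact ha.ne' h1
    · exact pes_ne (hSL.pes z hz).1 p h1
  | step y x m hm hy h =>
    have h1 := pes_ne (hSL.pes _ h.1).1 p
    rwa [Function.update_self] at h1

end Pool.Agent.VMX.H44.Sqn

namespace Pool.Agent.VMX.H44

open Pool.Agent.PFS Pool.Agent.PFJ Pool.Agent.NBT Pool.Agent.VMX

theorem sqn (hSQR : SqrStmt) (hSQC : SqcStmt) : SqnStmt := by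
  intro n C Γ Γ₀ K p J c F hSL z hz j hjp hjJ h hh x q x0 q0 hx hx0 hq hq0 hxt hqn hq0n
  refine tendsto_of_subseq_tendsto fun ns hns => ?_
  obtain ⟨R, hR⟩ := hxt.norm.bddAbove_range
  obtain ⟨q', -, φ, hφ, hlim⟩ := (isCompact_closedBall (0 : V n) R).tendsto_subseq
    (x := fun k => q (ns k)) (fun k => by
      rw [mem_closedBall_zero_iff, hqn]
      exact hR ⟨ns k, rfl⟩)
  have hns' : Tendsto (fun k => ns (φ k)) atTop atTop := hns.comp hφ.tendsto_atTop
  have hx' : Tendsto (fun k => x (ns (φ k))) atTop (𝓝 x0) := hxt.comp hns'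
  have hq' : Tendsto (fun k => q (ns (φ k))) atTop (𝓝 q') := hlim
  have hnorm : ‖q'‖ = ‖x0‖ := by
    refine tendsto_nhds_unique hq'.norm ?_
    have h1 : (fun k => ‖q (ns (φ k))‖) = fun k => ‖x (ns (φ k))‖ := by
      funext k
      exact hqn _
    rw [h1]
    exact hx'.norm
  have hx0n : x0 ≠ 0 := Sqn.rc_ne hSL hz hx0
  have hpos : 0 < ‖x0‖ := norm_pos_iff.2 hx0n
  have hq'n : q' ≠ 0 := by
    intro h0
    rw [h0, norm_zero] at hnorm
    exact hpos.ne hnorm
  have hSq' : Sq C F p J j z h x0 q' :=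
    hSQC n C Γ Γ₀ K p J c F hSL z hz j hjp hjJ h hh (fun k => x (ns (φ k)))
      (fun k => q (ns (φ k))) x0 q' (fun k => hx _) hx0 (fun k => hq _) hx' hq' hq'n
  obtain ⟨a, ha, hqa⟩ := (hSQR n C Γ Γ₀ K p J c F hSL z hz j hjp hjJ h hh x0 hx0).2.1 q0 q' hq0
    hSq'
  have ha1 : a = 1 := by
    rw [hqa, norm_smul, hq0n, Real.norm_eq_abs, abs_of_pos ha] at hnorm
    exact mul_right_cancel₀ hpos.ne' (by rw [hnorm, one_mul])
  rw [ha1, one_smul] at hqa
  refine ⟨φ, ?_⟩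
  rw [← hqa]
  exact hq'

end Pool.Agent.VMX.H44
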