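import Pool.Agent.VMX.StmtsA

/-! Squad VMX (MP_e54c4c_gt), row TRP: transport of moves (author helper44). -/

set_option autoImplicit false

open Matrix Filter Topology

namespace Pool.Agent.VMX.H44.Trp

open Pool.Agent.PFS Pool.Agent.PFJ Pool.Agent.NBT Pool.Agent.VMX

section tools

variable {n K : ℕ} {C : Set (V n)}

theorem dm_tr (hC : PCone C) {x y z : V n} (h1 : Dm C x y) (h2 : Dm C y z) : Dm C x z := by
  obtain ⟨M1, hM1, h1⟩ := h1
  obtain ⟨M2, hM2, h2⟩ := h2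
  refine ⟨M1 * M2, mul_pos hM1 hM2, ?_⟩
  have h3 : (M1 * M2) • z - x = (M1 • y - x) + M1 • (M2 • z - y) := by
    module
  rw [h3]
  exact hC.cl_add h1 (hC.cl_smul h2 hM1.le)

theorem dm_add (hC : PCone C) {x y z : V n} (h1 : Dm C x z) (h2 : Dm C y z) :
    Dm C (x + y) z := by
  obtain ⟨M1, hM1, h1⟩ := h1
  obtain ⟨M2, hM2, h2⟩ := h2
  refine ⟨M1 + M2, add_pos hM1 hM2, ?_⟩
  have h3 : (M1 + M2) • z - (x + y) = (M1 • z - x) + (M2 • z - y) := by
    module
  rw [h3]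
  exact hC.cl_add h1 h2

theorem dm_C (hC : PCone C) {x y : V n} (h1 : Dm C x y) (hx : x ∈ C) : y ∈ C := by
  obtain ⟨M, hM, h1⟩ := h1
  have h2 : M • y ∈ C := by
    have h3 := hC.add_cl hx h1
    rwa [add_sub_cancel] at h3
  have h3 := hC.smul _ h2 M⁻¹ (inv_pos.2 hM)
  rwa [smul_smul, inv_mul_cancel₀ hM.ne', one_smul] at h3

theorem dm_absorb (hC : PCone C) {p : V n} (hp : p ∈ C) (v : V n) : Dm C v p := by
  obtain ⟨M, hM, h1⟩ := hC.absorb hp v
  exact ⟨M, hM, subset_closure h1⟩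

theorem dm_fS (hC : PCone C) {w : Fin K → V n} (hw : ∀ i, w i ∈ closure C)
    {I J : Finset (Fin K)} (hIJ : I ⊆ J) : Dm C (fS w I) (fS w J) := by
  refine ⟨1, one_pos, ?_⟩
  rw [one_smul, ← fS_add_sdiff w hIJ, add_sub_cancel_left]
  exact fS_cl hC hw _

theorem dm_one (hC : PCone C) {w : Fin K → V n} (hw : ∀ i, w i ∈ closure C)
    {J : Finset (Fin K)} {i : Fin K} (hi : i ∈ J) : Dm C (w i) (fS w J) := by
  have h1 := dm_fS hC hw (Finset.singleton_subset_iff.2 hi)
  rwa [fS_single] at h1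

theorem dm_map {T : V n →ₗ[ℝ] V n} (hT : ∀ x ∈ closure C, T x ∈ closure C) {x y : V n}
    (h : Dm C x y) : Dm C (T x) (T y) := by
  obtain ⟨M, hM, h1⟩ := h
  refine ⟨M, hM, ?_⟩
  have h2 := hT _ h1
  rwa [map_sub, map_smul] at h2

theorem pes_ne {w : Fin K → V n} (hw : PES C w) (i : Fin K) : w i ≠ 0 := by
  intro h0
  have h3 := hw.pos (fun _ => 1) (fun _ => one_pos)
  have h4 := hw.bd (fun j => if j = i then 0 else 1) (fun j => by
    split_ifs
    · exact le_refl _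
    · exact zero_le_one) ⟨i, if_pos rfl⟩
  apply h4
  have h5 : ∑ j, (if j = i then (0 : ℝ) else 1) • w j = ∑ j, (1 : ℝ) • w j := by
    refine Finset.sum_congr rfl fun j _ => ?_
    split_ifs with hj
    · rw [hj, h0, smul_zero, smul_zero]
    · rfl
  rw [h5]
  exact h3

theorem pes_bd {w : Fin K → V n} (hw : PES C w) (l : Fin K) : fS w {l}ᶜ ∉ C := by
  intro h
  have h4 := hw.bd (fun j => if j = l then 0 else 1) (fun j => by
    split_ifs
    · exact le_refl _
    · exact zero_le_one) ⟨l, if_pos rfl⟩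
  apply h4
  have h5 : ∑ j, (if j = l then (0 : ℝ) else 1) • w j = fS w {l}ᶜ := by
    unfold fS
    rw [← Finset.sum_filter_add_sum_filter_not Finset.univ (fun j => j = l)]
    have h6 : ∑ j ∈ Finset.univ.filter (fun j => j = l), (if j = l then (0 : ℝ) else 1) • w j =
        0 := by
      refine Finset.sum_eq_zero fun j hj => ?_
      rw [Finset.mem_filter] at hj
      rw [if_pos hj.2, zero_smul]
    have h7 : Finset.univ.filter (fun j => ¬ j = l) = ({l}ᶜ : Finset (Fin K)) := by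
      ext j
      simp
    rw [h6, zero_add, h7]
    refine Finset.sum_congr rfl fun j hj => ?_
    rw [Finset.mem_compl, Finset.mem_singleton] at hj
    rw [if_neg hj, one_smul]
  rw [h5]
  exact h

theorem fS_upd_pair (w : Fin K → V n) (x : V n) {p j : Fin K} (hpj : p ≠ j) :
    fS (Function.update w p x) {p, j} = x + w j := by
  rw [fS_pair _ hpj, Function.update_self, Function.update_of_ne (Ne.symm hpj)]

theorem fS_upd_compl (w : Fin K → V n) (x : V n) {p l : Fin K} (hpl : p ≠ l) :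
    fS (Function.update w p x) {l}ᶜ = x + fS w {p, l}ᶜ := by
  have h1 : ({l}ᶜ : Finset (Fin K)) = insert p {p, l}ᶜ := by
    ext i
    simp only [Finset.mem_compl, Finset.mem_singleton, Finset.mem_insert]
    constructor
    · intro h
      by_cases hi : i = p
      · exact Or.inl hi
      · exact Or.inr (by tauto)
    · rintro (h | h)
      · rw [h]
        exact hpl
      · tauto
  have h2 : p ∉ ({p, l}ᶜ : Finset (Fin K)) := by simp
  have h3 : fS (Function.update w p x) {l}ᶜ =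
      Function.update w p x p + fS (Function.update w p x) {p, l}ᶜ := by
    rw [h1]
    exact Finset.sum_insert h2
  rw [h3, Function.update_self, fS_update w p x h2]

theorem exists_psi {E E' : Submodule ℝ (V n)} {T : V n →ₗ[ℝ] V n}
    (hinj : ∀ v ∈ E', T v = 0 → v = 0) (hle : E.map T ≤ E'.map T) :
    ∃ ψ : V n →ₗ[ℝ] V n, ∀ v ∈ E, ψ v ∈ E' ∧ T (ψ v) = T v := by
  have hinj' : Function.Injective (T.domRestrict E') := by
    rw [← LinearMap.ker_eq_bot, LinearMap.ker_eq_bot']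
    rintro ⟨v, hv⟩ h
    exact Subtype.ext (hinj v hv h)
  have hmem : ∀ v : E, T.domRestrict E v ∈ LinearMap.range (T.domRestrict E') := by
    rintro ⟨v, hv⟩
    obtain ⟨v', hv', he⟩ := hle ⟨v, hv, rfl⟩
    exact ⟨⟨v', hv'⟩, he⟩
  let e' := LinearEquiv.ofInjective (T.domRestrict E') hinj'
  let A := LinearMap.codRestrict (LinearMap.range (T.domRestrict E')) (T.domRestrict E) hmem
  obtain ⟨ψ, hψ⟩ := LinearMap.exists_extend (E'.subtype ∘ₗ (e'.symm.toLinearMap ∘ₗ A))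
  refine ⟨ψ, fun v hv => ?_⟩
  have h1 : ψ v = (e'.symm (A ⟨v, hv⟩) : V n) := by
    have h2 := LinearMap.congr_fun hψ ⟨v, hv⟩
    exact h2
  rw [h1]
  refine ⟨(e'.symm (A ⟨v, hv⟩)).2, ?_⟩
  have h3 : e' (e'.symm (A ⟨v, hv⟩)) = A ⟨v, hv⟩ := e'.apply_symm_apply _
  have h4 := congrArg Subtype.val h3
  exact h4

end tools

end Pool.Agent.VMX.H44.Trp

namespace Pool.Agent.VMX.H44

open Pool.Agent.PFS Pool.Agent.PFJ Pool.Agent.NBT Pool.Agent.VMX

theorem trp (hZPF : ZpfStmt) (hZPT : ZptStmt) (hFMI : FmiStmt) (hFMC : FmcStmt)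
    (hSLB : SlbStmt) (hCES : CesStmt) (hTES : TesStmt) : TrpStmt := by
  intro n C Γ Γ₀ K p J c F hSL z hz m hm θ g s T L hg hZ j h hjp hjm hFh hh
  have hCC := hSL.cc
  have hC := hCC.toPCone
  have hpm : p ≠ m := fun e => hSL.pJ (e ▸ hm)
  have hzP : IsPES C Γ z := hSL.pes z hz
  have hzc : ∀ i, z i ∈ closure C := fun i => hzP.1.cl i
  have hhP : IsPES C Γ (Function.update z p h) := hSL.pes _ hFh
  have hhc : h ∈ closure C := by
    have h1 := hhP.1.cl p
    rwa [Function.update_self] at h1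
  have hjI : j ∈ ({p, m}ᶜ : Finset (Fin K)) := by
    rw [Finset.mem_compl, Finset.mem_insert, Finset.mem_singleton]
    tauto
  have hpI : p ∉ ({p, m}ᶜ : Finset (Fin K)) := by simp
  have hmI : m ∉ ({p, m}ᶜ : Finset (Fin K)) := by simp
  obtain ⟨hT, hTu, -⟩ := hZPF n C Γ hCC (fS z {p, m}ᶜ) (fS z {p, m}ᶜᶜ) (fS_cl hC hzc _)
    (fS_cl hC hzc _) θ g s T L hZ
  obtain ⟨hWP, -, hfW, -, -⟩ := hZPT n C Γ hCC K z hzP {p, m}ᶜ ⟨j, hjI⟩
    ⟨p, by rw [Finset.mem_compl]; exact hpI⟩ θ g s T L hZ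
  obtain ⟨hFW, hmap, hpos, hTm, hTm'⟩ := hTES n C Γ Γ₀ K p J c F hSL z hz m hm θ g s T L hg hZ
  have hWp : zW z {p, m}ᶜ T L p = T (z p) := if_neg hpI
  have hWm : zW z {p, m}ᶜ T L m = T (z m) := if_neg hmI
  have hWc : ∀ i, zW z {p, m}ᶜ T L i ∈ closure C := fun i => hWP.1.cl i
  -- T vanishes at the other vertices
  have hTj : T (z j) = 0 := by
    obtain ⟨M, hM, h1⟩ := Trp.dm_map hT (Trp.dm_one hC hzc hjI)
    rw [hTu, smul_zero, zero_sub] at h1
    exact hC.salient _ (hT _ (hzc j)) h1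
  -- the factor
  have hTp0 : T (z p) ≠ 0 := by
    rw [← hWp]
    exact Trp.pes_ne hWP.1 p
  have hTpc : T (z p) ∈ closure C := hT _ (hzc p)
  obtain ⟨κ, hκ⟩ : ∃ κ : ℝ, T h = κ • T (z p) := by
    have h1 : Ext C (T (z p)) := by
      rw [← hWp]
      exact exv n C Γ hCC K (le_trans (by norm_num) hSL.three) hSL.maxc _ hWP p
    obtain ⟨M, hM, h2⟩ := Trp.dm_map hT hh
    rw [map_add, hTj, add_zero] at h2
    exact ext_mul h1 (hT _ hhc) h2
  have hhz : Dm C (z p) (h + z j) := by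
    have h1 := (hFMC n C Γ hCC K hSL.three hSL.maxc z p hzP).2.2.1 h {p, j} hhP (by simp) (by
      rw [fS_pair z (Ne.symm hjp)]
      exact hh)
    rwa [Trp.fS_upd_pair z h (Ne.symm hjp)] at h1
  have hκ0 : 0 < κ := by
    obtain ⟨M, hM, h2⟩ := Trp.dm_map hT hhz
    rw [map_add, hTj, add_zero, hκ] at h2
    by_contra hk
    push Not at hk
    have h3 : 0 < 1 - M * κ := by nlinarith
    have h4 : (1 - M * κ)⁻¹ • (M • κ • T (z p) - T (z p)) = -T (z p) := by
      have h5 : M • κ • T (z p) - T (z p) = -((1 - M * κ) • T (z p)) := by module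
      rw [h5, smul_neg, smul_smul, inv_mul_cancel₀ h3.ne', one_smul]
    have h5 := hC.cl_smul h2 (inv_pos.2 h3).le
    rw [h4] at h5
    exact hTp0 (hC.salient _ hTpc h5)
  -- the zoom of the second simplex
  obtain ⟨z', hz'⟩ : ∃ z', z' = Function.update z p h := ⟨_, rfl⟩
  have hz'p : z' p = h := by
    rw [hz', Function.update_self]
  have hz'i : ∀ i, i ≠ p → z' i = z i := by
    intro i hi
    rw [hz', Function.update_of_ne hi]
  rw [← hz'] at hFh hhP ⊢
  have hfS1 : fS z' {p, m}ᶜ = fS z {p, m}ᶜ := by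
    rw [hz']
    exact fS_update z p h hpI
  have hfS2 : fS z' {p, m}ᶜᶜ = h + z m := by
    rw [compl_compl, hz']
    exact Trp.fS_upd_pair z h hpm
  have hZ' : Zp C Γ (fS z' {p, m}ᶜ) (fS z' {p, m}ᶜᶜ) θ g s T L := by
    rw [hfS1, hfS2]
    refine ⟨hZ.mem, hZ.pos, hZ.inf, hZ.limT, hZ.limL, ?_⟩
    have h1 := hZ.sum
    rw [compl_compl, fS_pair z hpm] at h1
    have h2 : L (fS z {p, m}ᶜ) ∈ closure C := by
      rw [← hfW]
      exact fS_cl hC hWc _
    refine Trp.dm_C hC ?_ h1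
    rw [map_add, map_add, hκ]
    -- a + (T zp + T zm) is dominated by a + (κ T zp + T zm)
    have h3 : Dm C (T (z p)) (L (fS z {p, m}ᶜ) + (κ • T (z p) + T (z m))) := by
      refine ⟨κ⁻¹, inv_pos.2 hκ0, ?_⟩
      have h4 : κ⁻¹ • (L (fS z {p, m}ᶜ) + (κ • T (z p) + T (z m))) - T (z p) =
          κ⁻¹ • (L (fS z {p, m}ᶜ) + T (z m)) := by
        have h5 : κ⁻¹ • κ • T (z p) = T (z p) := by
          rw [smul_smul, inv_mul_cancel₀ hκ0.ne', one_smul]
        rw [smul_add, smul_add, h5, smul_add]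
        abel
      rw [h4]
      exact hC.cl_smul (hC.cl_add h2 (hT _ (hzc m))) (inv_pos.2 hκ0).le
    have h4 : Dm C (L (fS z {p, m}ᶜ)) (L (fS z {p, m}ᶜ) + (κ • T (z p) + T (z m))) := by
      refine ⟨1, one_pos, ?_⟩
      rw [one_smul, add_sub_cancel_left]
      exact hC.cl_add (hC.cl_smul hTpc hκ0.le) (hT _ (hzc m))
    have h5 : Dm C (T (z m)) (L (fS z {p, m}ᶜ) + (κ • T (z p) + T (z m))) := by
      refine ⟨1, one_pos, ?_⟩
      have h6 : (1 : ℝ) • (L (fS z {p, m}ᶜ) + (κ • T (z p) + T (z m))) - T (z m) =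
          L (fS z {p, m}ᶜ) + κ • T (z p) := by
        rw [one_smul]
        abel
      rw [h6]
      exact hC.cl_add h2 (hC.cl_smul hTpc hκ0.le)
    exact Trp.dm_add hC h4 (Trp.dm_add hC h3 h5)
  obtain ⟨-, hmap', hpos', hTq, -⟩ := hTES n C Γ Γ₀ K p J c F hSL z' hFh m hm θ g s T L hg hZ'
  have hW' : zW z' {p, m}ᶜ T L = fun i => (if i = p then κ else 1) • zW z {p, m}ᶜ T L i := by
    funext i
    unfold zW
    by_cases hi : i ∈ ({p, m}ᶜ : Finset (Fin K))
    · have hip : i ≠ p := fun e => hpI (e ▸ hi)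
      rw [if_pos hi, if_pos hi, if_neg hip, one_smul, hz'i i hip]
    · rw [if_neg hi, if_neg hi]
      by_cases hip : i = p
      · rw [if_pos hip, hip, hz'p, hκ]
      · rw [if_neg hip, one_smul, hz'i i hip]
  obtain ⟨hEsW, hTmW⟩ := (hCES n C Γ Γ₀ K p J c F hSL _ hFW m hm).2.2.1
    (fun i => if i = p then κ else 1) (by
      intro i
      split_ifs
      · exact hκ0
      · exact one_pos)
  rw [hW', hEsW] at hmap'
  have hTq' : ∀ q ∈ Es C F p m z', Tm C F p m z' q ↔ Tm C F p m (zW z {p, m}ᶜ T L) (T q) := by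
    intro q hq
    rw [hTq q hq, hW', hTmW]
  -- injectivity
  have h0c : (0 : V n) ∈ closure C := by
    have h1 := hC.cl_smul hTpc (le_refl (0 : ℝ))
    rwa [zero_smul] at h1
  have hinj' : ∀ v ∈ Es C F p m z', T v = 0 → v = 0 := by
    intro v hv h1
    refine hC.salient v ((hpos' v hv).1 (by rw [h1]; exact h0c)) ((hpos' (-v)
      (Submodule.neg_mem _ hv)).1 (by rw [map_neg, h1, neg_zero]; exact h0c))
  have hinj2 : ∀ a ∈ Es C F p m z', ∀ b ∈ Es C F p m z', T a = T b → a = b := by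
    intro a ha b hb hab
    have h1 := hinj' (a - b) (Submodule.sub_mem _ ha hb) (by rw [map_sub, hab, sub_self])
    exact sub_eq_zero.1 h1
  obtain ⟨ψ, hψ⟩ := Trp.exists_psi hinj' (E := Es C F p m z) (T := T) (by
    rw [hmap, hmap'])
  obtain ⟨hzpE, hzmE, -⟩ := (hCES n C Γ Γ₀ K p J c F hSL z hz m hm).1
  obtain ⟨hzpE', hzmE', -⟩ := (hCES n C Γ Γ₀ K p J c F hSL z' hFh m hm).1
  have hTmE : ∀ x, Tm C F p m z x → x ∈ Es C F p m z := fun x hx =>
    Submodule.subset_span (Or.inr hx)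
  have hTmE' : ∀ x, Tm C F p m z' x → x ∈ Es C F p m z' := fun x hx =>
    Submodule.subset_span (Or.inr hx)
  refine ⟨ψ, ?_, fun v hv => (hψ v hv).2, ?_, ?_, ⟨κ⁻¹, inv_pos.2 hκ0, ?_⟩, ?_, ?_⟩
  · -- the image
    apply le_antisymm
    · rintro _ ⟨v, hv, rfl⟩
      exact (hψ v hv).1
    · intro v' hv'
      have h1 : T v' ∈ (Es C F p m z).map T := by
        rw [hmap, ← hmap']
        exact ⟨v', hv', rfl⟩
      obtain ⟨v, hv, hvv⟩ := h1
      refine ⟨v, hv, hinj2 _ (hψ v hv).1 _ hv' ?_⟩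
      rw [(hψ v hv).2, hvv]
  · intro v hv
    rw [← hpos' (ψ v) (hψ v hv).1, (hψ v hv).2, hpos v hv]
  · refine hinj2 _ (hψ _ hzmE).1 _ ?_ (hψ _ hzmE).2
    rw [← hz'i m (Ne.symm hpm)]
    exact hzmE'
  · refine hinj2 _ (hψ _ hzpE).1 _ ?_ ?_
    · rw [← hz'p]
      exact Submodule.smul_mem _ _ hzpE'
    · rw [(hψ _ hzpE).2, map_smul, hκ, smul_smul, inv_mul_cancel₀ hκ0.ne', one_smul]
  · intro x hx
    have hxE := hTmE x hx
    obtain ⟨hqE, hqT⟩ := hψ x hxE
    have hTq2 : Tm C F p m z' (ψ x) := by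
      rw [hTq' _ hqE, hqT]
      exact (hTm x hxE).1 hx
    refine ⟨hTq2, ?_⟩
    obtain ⟨q, hqdef⟩ : ∃ q, q = ψ x := ⟨_, rfl⟩
    rw [← hqdef] at hqE hqT hTq2 ⊢
    obtain ⟨hFq, hDq⟩ := hTq2
    obtain ⟨hFx, hDx⟩ := hx
    rw [hz'p, hz'i m (Ne.symm hpm)] at hDq
    have hupd : Function.update z' p q = Function.update z p q := by
      rw [hz', Function.update_idem]
    rw [hupd] at hFq
    have hqLam : q ∈ LamC C Γ := by
      have h1 := (hSL.pes _ hFq).2 p
      rwa [Function.update_self] at h1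
    have hxP : IsPES C Γ (Function.update z p x) := hSL.pes _ hFx
    have h1 := hFMI n C Γ hCC K hSL.three hSL.maxc (Function.update z p x) hxP {p, j}
      ⟨p, by simp⟩ q hqLam (by
      intro l hl hlC
      rw [Finset.mem_insert, Finset.mem_singleton, not_or] at hl
      obtain ⟨hlp, hlj⟩ := hl
      rw [Trp.fS_upd_compl z x (Ne.symm hlp)] at hlC
      by_cases hlm : l = m
      · -- the vertex m
        subst hlm
        have h2 : Dm C (T (z p + z l)) (T (q + (x + fS z {p, l}ᶜ))) :=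
          Trp.dm_map hT (Trp.dm_absorb hC hlC _)
        rw [map_add T q, map_add T x, hTu, add_zero, hqT] at h2
        obtain ⟨M, hM, h3⟩ := h2
        have h4 : M • (T x + T x) - T (z p + z l) = T ((2 * M) • x - (z p + z l)) := by
          rw [map_sub, map_smul]
          module
        rw [h4] at h3
        have h5 : (2 * M) • x - (z p + z l) ∈ Es C F p l z :=
          Submodule.sub_mem _ (Submodule.smul_mem _ _ hxE) (Submodule.add_mem _ hzpE hzmE)
        have h6 := (hpos _ h5).1 h3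
        obtain ⟨⟨-, hxc, -, hxn⟩, -⟩ := (hSL.bd z hz l hm x).1 ⟨hFx, hDx⟩
        have h7 := (hSLB n C Γ hCC K hSL.three hSL.maxc z hzP p l hpm _
          (hSL.box z hz l hm)).2.2.2.2.2
        apply hxn
        refine ⟨hxE, hxc, fun v hv => ?_⟩
        obtain ⟨M', hM', h8⟩ := h7.2.2 v hv
        refine ⟨M' * (2 * M), by positivity, ?_⟩
        have h9 : (M' * (2 * M)) • x - v =
            M' • ((2 * M) • x - (z p + z l)) + (M' • (z p + z l) - v) := by
          module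
        rw [h9]
        exact hC.cl_add (hC.cl_smul h6 hM'.le) h8
      · have hmem : ∀ i, i ≠ l → Dm C (z i) (fS z {l}ᶜ) := by
          intro i hi
          refine Trp.dm_one hC hzc ?_
          rw [Finset.mem_compl, Finset.mem_singleton]
          exact hi
        have hzp := hmem p (Ne.symm hlp)
        have hzj := hmem j (Ne.symm hlj)
        have hzm := hmem m (fun e => hlm e.symm)
        have h2 : Dm C q (fS z {l}ᶜ) :=
          Trp.dm_tr hC hDq (Trp.dm_add hC (Trp.dm_tr hC hh (Trp.dm_add hC hzp hzj)) hzm)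
        have h3 : Dm C x (fS z {l}ᶜ) := Trp.dm_tr hC hDx (Trp.dm_add hC hzp hzm)
        have h4 : Dm C (fS z {p, l}ᶜ) (fS z {l}ᶜ) := by
          refine Trp.dm_fS hC hzc ?_
          intro i hi
          rw [Finset.mem_compl, Finset.mem_insert, Finset.mem_singleton, not_or] at hi
          rw [Finset.mem_compl, Finset.mem_singleton]
          exact hi.2
        exact Trp.pes_bd hzP.1 l (Trp.dm_C hC (Trp.dm_add hC h2 (Trp.dm_add hC h3 h4)) hlC))
    rwa [Trp.fS_upd_pair z x (Ne.symm hjp)] at h1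
  · intro x' hx'
    have hx'E := hTmE' x' hx'
    obtain ⟨x, hx, hxx⟩ := hTm' (T x') ((hTq' x' hx'E).1 hx')
    refine ⟨x, hx, hinj2 _ (hψ x (hTmE x hx)).1 _ hx'E ?_⟩
    rw [(hψ x (hTmE x hx)).2, hxx]

end Pool.Agent.VMX.H44
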